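import Pool.Agent.Lead.Br2

set_option autoImplicit false

namespace Pool.Agent.Results.MP_2d934b_pr.Q1
open Pool.Agent.Lead.Br

/-- For every `r ≥ 5` there are `S`, `d`, `A ⊆ S^d` such that inequivalent bracketings of `A^r`
have distinct values. -/
theorem result : ∀ r : ℕ, 5 ≤ r →
    ∃ (S : Type) (_ : Nonempty S) (d : ℕ) (_ : 1 ≤ d) (A : Set (Fin d → S)),
      ∀ T T' : BT, T.size = r → T'.size = r → ¬ Iso T T' → pw A T ≠ pw A T' := by
  intro r hr
  refine ⟨Fin 3, ⟨0⟩, Fintype.card (Bk r × Fin 3), ?_,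
    tr (Fintype.equivFin (Bk r × Fin 3)) (AU r), ?_⟩
  · exact Fintype.card_pos_iff.2 ⟨(.inl ⟨0, by omega⟩, 0)⟩
  · intro T T' h1 h2 hne h
    rw [pw_tr, pw_tr] at h
    exact hne (unordered r T T' h1 h2 (tr_inj _ h))

end Pool.Agent.Results.MP_2d934b_pr.Q1
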